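import Pool.Agent.H78.S.T8

/-!
# Row CJM of sgt_modules: a commutative subgroup as a module
-/

set_option autoImplicit false

open Set Pool.Agent.H77.BC Pool.Agent.H78.S

namespace Pool.Agent.H44.S.CJM

variable {M : Type} {U : RU M} {Γ : Type} [Group Γ] [Cod M Γ] [DG U Γ]

/-- the additive group of a commutative subgroup -/
@[reducible] def acg (V : Subgroup Γ) (hV : Com V) : AddCommGroup {x : Γ // x ∈ V} where
  add a b := ⟨a.1 * b.1, V.mul_mem a.2 b.2⟩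
  add_assoc a b c := Subtype.ext (mul_assoc a.1 b.1 c.1)
  zero := ⟨1, V.one_mem⟩
  zero_add a := Subtype.ext (one_mul a.1)
  add_zero a := Subtype.ext (mul_one a.1)
  neg a := ⟨a.1⁻¹, V.inv_mem a.2⟩
  neg_add_cancel a := Subtype.ext (inv_mul_cancel a.1)
  add_comm a b := Subtype.ext (hV a.1 a.2 b.1 b.2)
  nsmul := @nsmulRec _ ⟨⟨1, V.one_mem⟩⟩ ⟨fun a b => ⟨a.1 * b.1, V.mul_mem a.2 b.2⟩⟩
  zsmul := @zsmulRec _ ⟨⟨1, V.one_mem⟩⟩ ⟨fun a b => ⟨a.1 * b.1, V.mul_mem a.2 b.2⟩⟩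
    ⟨fun a => ⟨a.1⁻¹, V.inv_mem a.2⟩⟩
    (@nsmulRec _ ⟨⟨1, V.one_mem⟩⟩ ⟨fun a b => ⟨a.1 * b.1, V.mul_mem a.2 b.2⟩⟩)

/-- the action by conjugation -/
@[reducible] def cja (V T : Subgroup Γ) (hV : Com V) (hn : ∀ t ∈ T, ∀ v ∈ V, t * v * t⁻¹ ∈ V) :
    @DistribMulAction T {x : Γ // x ∈ V} _ (acg V hV).toAddMonoid :=
  letI := acg V hV
  { smul := fun t v => ⟨t.1 * v.1 * t.1⁻¹, hn t.1 t.2 v.1 v.2⟩
    one_smul := fun v => Subtype.ext (by
      change (1 : Γ) * v.1 * (1 : Γ)⁻¹ = v.1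
      simp)
    mul_smul := fun t s v => Subtype.ext (by
      change (t.1 * s.1) * v.1 * (t.1 * s.1)⁻¹ = t.1 * (s.1 * v.1 * s.1⁻¹) * t.1⁻¹
      group)
    smul_zero := fun t => Subtype.ext (by
      change t.1 * 1 * t.1⁻¹ = 1
      simp)
    smul_add := fun t v w => Subtype.ext (by
      change t.1 * (v.1 * w.1) * t.1⁻¹ = (t.1 * v.1 * t.1⁻¹) * (t.1 * w.1 * t.1⁻¹)
      group) }

end Pool.Agent.H44.S.CJM

namespace Pool.Agent.H44.S

open Pool.Agent.H44.S.CJM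

theorem pf_CJM : T_CJM := by
  intro M U Γ _ _ _ V T hVD hT hV hn
  have hful : Ful U {x : Γ // x ∈ V} := Pool.Agent.H77.KG.ful_sub hVD
  have hfulT : Ful U {x : Γ // x ∈ T} := Pool.Agent.H77.KG.ful_sub hT.1
  have hDGT : DG U T := Pool.Agent.H77.KG.dgSub T hT.1
  have hvV : DFn U (fun x : {x : Γ // x ∈ V} => x.1) := Pool.Agent.H77.KG.DFn_sval' hVD
  have hvT : DFn U (fun x : {x : Γ // x ∈ T} => x.1) := Pool.Agent.H77.KG.DFn_sval' hT.1
  refine ⟨T, {x : Γ // x ∈ V}, inferInstance, acg V hV, cja V T hV hn, Pool.Agent.H77.KG.codSub,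
    Pool.Agent.H77.KG.codSub, T.subtype, Subtype.val, hDGT, ?_, ?_, ?_, ?_, ?_, ?_, ?_, ?_, ?_, ?_⟩
  · let := acg V hV
    refine ⟨?_⟩
    have h1 : DFn U (fun z : {x : Γ // x ∈ V} × {x : Γ // x ∈ V} => z.1.1) :=
      DFn_comp (g := fun x : {x : Γ // x ∈ V} => x.1) hvV DFn_fst
    have h2 : DFn U (fun z : {x : Γ // x ∈ V} × {x : Γ // x ∈ V} => z.2.1) :=
      DFn_comp (g := fun x : {x : Γ // x ∈ V} => x.1) hvV DFn_snd
    have h3 : DFn U (fun z : {x : Γ // x ∈ V} × {x : Γ // x ∈ V} => z.1.1 * z.2.1) :=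
      DFn_gmul h1 h2
    exact Pool.Agent.H77.KG.DFn_smk (p := fun x => x ∈ V) hVD h3
  · let := acg V hV
    let := cja V T hV hn
    refine ⟨?_⟩
    have h1 : DFn U (fun z : {x : Γ // x ∈ T} × {x : Γ // x ∈ V} => z.1.1) :=
      DFn_comp (g := fun x : {x : Γ // x ∈ T} => x.1) hvT DFn_fst
    have h2 : DFn U (fun z : {x : Γ // x ∈ T} × {x : Γ // x ∈ V} => z.2.1) :=
      DFn_comp (g := fun x : {x : Γ // x ∈ V} => x.1) hvV DFn_snd
    have h3 : DFn U (fun z : {x : Γ // x ∈ T} × {x : Γ // x ∈ V} => z.1.1 * z.2.1 * z.1.1⁻¹) :=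
      DFn_gmul (DFn_gmul h1 h2) (DFn_ginv h1)
    exact Pool.Agent.H77.KG.DFn_smk (p := fun x => x ∈ V) hVD h3
  · refine ⟨hfulT.full, fun L _ hL hR => ?_⟩
    rw [Pool.Agent.H77.KG.D_sub] at hL
    rw [Pool.Agent.H77.KG.R_sub, Pool.Agent.H77.KG.R_sub (X := (L : Set T))] at hR
    have e1 : Subtype.val '' ((⊤ : Subgroup T) : Set T) = (T : Set Γ) := by
      ext x; simp
    have e2 : Subtype.val '' (L : Set T) = ((L.map T.subtype : Subgroup Γ) : Set Γ) := by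
      ext x; simp
    rw [e1, e2] at hR
    rw [e2] at hL
    have h1 := hT.2 (L.map T.subtype) (Subgroup.map_subtype_le L) hL hR
    rw [eq_top_iff]
    rintro ⟨x, hx⟩ -
    have h2 : x ∈ L.map T.subtype := by rw [h1]; exact hx
    obtain ⟨y, hy, hyx⟩ := h2
    have h3 : y = ⟨x, hx⟩ := Subtype.ext hyx
    rw [← h3]; exact hy
  · exact Subtype.val_injective
  · exact Subgroup.range_subtype T
  · exact Subtype.val_injective
  · ext x; simp
  · intro v w; rfl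
  · intro g v; rfl
  · intro A
    exact Pool.Agent.H77.KG.D_sub A

end Pool.Agent.H44.S
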