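import Pool.Agent.H78.S.T8

/-!
# Row KFD of sgt_modules: the field of a central connected group
-/

set_option autoImplicit false

open Set Pool.Agent.H77.BC Pool.Agent.H78.S

namespace Pool.Agent.H44.S.KFD

variable {M : Type} {U : RU M} {G V : Type} [Group G] [AddCommGroup V]
  [DistribMulAction G V] [Cod M G] [Cod M V] [DG U G] [Pool.Agent.H77.KG.DAb U V]
  [Pool.Agent.H77.KG.DA U G V]

/-- the operator of a group element -/
def op (t : G) : AddMonoid.End V := DistribMulAction.toAddMonoidEnd G V t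

theorem op_apply (t : G) (v : V) : op t v = t • v := rfl

theorem op_mem {Z : Subgroup G} {t : G} (ht : t ∈ Z) :
    op (V := V) t ∈ Pool.Agent.H77.KG.Eg (V := V) Z :=
  Subring.subset_closure ⟨t, ht, fun _ => rfl⟩

omit [Cod M G] [Cod M V] [DG U G] [Pool.Agent.H77.KG.DAb U V] [Pool.Agent.H77.KG.DA U G V] in
/-- the operators commute with `G` -/
theorem Eg_comm {Z : Subgroup G} (hZ : ∀ z ∈ Z, ∀ g : G, z * g = g * z)
    {r : AddMonoid.End V} (hr : r ∈ Pool.Agent.H77.KG.Eg (V := V) Z) (g : G) :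
    ∀ v : V, r (g • v) = g • r v := by
  unfold Pool.Agent.H77.KG.Eg at hr
  induction hr using Subring.closure_induction with
  | mem x hx =>
    obtain ⟨t, ht, h⟩ := hx
    intro v
    rw [h, h, ← mul_smul, ← mul_smul, hZ t ht g]
  | zero => intro v; simp
  | one => intro v; simp
  | add x y hx hy ihx ihy =>
    intro v
    have h1 : ∀ w : V, (x + y) w = x w + y w := fun w => rfl
    rw [h1, h1, ihx, ihy, smul_add]
  | neg x hx ih =>
    intro v
    have h1 : ∀ w : V, (-x) w = - x w := fun w => rfl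
    rw [h1, h1, ih, smul_neg]
  | mul x y hx hy ihx ihy =>
    intro v
    have h1 : ∀ w : V, (x * y) w = x (y w) := fun w => rfl
    rw [h1, h1, ihy, ihx]

/-- the operators are definable -/
theorem Eg_def {Z : Subgroup G}
    {r : AddMonoid.End V} (hr : r ∈ Pool.Agent.H77.KG.Eg (V := V) Z) :
    DFn U (fun v : V => r v) := by
  unfold Pool.Agent.H77.KG.Eg at hr
  induction hr using Subring.closure_induction with
  | mem x hx =>
    obtain ⟨t, ht, h⟩ := hx
    have h1 : DFn U (fun v : V => t • v) := Pool.Agent.H77.KG.DFn_act (DFn_const t) DFn_id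
    have e : (fun v : V => x v) = fun v : V => t • v := funext h
    rw [e]; exact h1
  | zero => exact DFn_const (0 : V)
  | one => exact DFn_id
  | add x y hx hy ihx ihy => exact Pool.Agent.H77.KG.DFn_aadd ihx ihy
  | neg x hx ih => exact Pool.Agent.H77.KG.DFn_aneg ih
  | mul x y hx hy ihx ihy => exact DFn_comp (g := fun v : V => x v) ihx ihy

omit [Cod M G] [Cod M V] [DG U G] [Pool.Agent.H77.KG.DAb U V] [Pool.Agent.H77.KG.DA U G V] in
theorem Eg_inv {Z : Subgroup G} {W : AddSubgroup V} (hW : Pool.Agent.H77.KG.Iv Z W)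
    {r : AddMonoid.End V} (hr : r ∈ Pool.Agent.H77.KG.Eg (V := V) Z) :
    ∀ w ∈ W, r w ∈ W := by
  unfold Pool.Agent.H77.KG.Eg at hr
  induction hr using Subring.closure_induction with
  | mem x hx =>
    obtain ⟨t, ht, h⟩ := hx
    intro w hw
    rw [h]; exact hW t ht w hw
  | zero => intro w hw; exact W.zero_mem
  | one => intro w hw; exact hw
  | add x y hx hy ihx ihy => intro w hw; exact W.add_mem (ihx w hw) (ihy w hw)
  | neg x hx ih => intro w hw; exact W.neg_mem (ih w hw)
  | mul x y hx hy ihx ihy => intro w hw; exact ihx _ (ihy w hw)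

omit [Cod M G] [Cod M V] [DG U G] [Pool.Agent.H77.KG.DAb U V] [Pool.Agent.H77.KG.DA U G V] in
/-- differences of sums of group elements -/
theorem bsum_mem {Z : Subgroup G} {k : ℕ} (t t' : Fin k → G) (h : ∀ i, t i ∈ Z ∧ t' i ∈ Z) :
    (∑ i, (op (t i) - op (t' i)) : AddMonoid.End V) ∈ Pool.Agent.H77.KG.Eg (V := V) Z :=
  Subring.sum_mem _ fun i _ => Subring.sub_mem _ (op_mem (h i).1) (op_mem (h i).2)

omit [Cod M G] [Cod M V] [DG U G] [Pool.Agent.H77.KG.DAb U V] [Pool.Agent.H77.KG.DA U G V] in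
theorem bsum_apply {k : ℕ} (t t' : Fin k → G) (v : V) :
    (∑ i, (op (t i) - op (t' i)) : AddMonoid.End V) v = ∑ i, (t i • v - t' i • v) := by
  have h1 : (∑ i, (op (t i) - op (t' i)) : AddMonoid.End V) v =
      ∑ i, (op (t i) - op (t' i) : AddMonoid.End V) v :=
    AddMonoidHom.finsetSum_apply (fun i => (op (t i) - op (t' i) : AddMonoid.End V)) Finset.univ v
  rw [h1]
  rfl

/-- the sets of values of bounded sums are definable -/
theorem D_vals {Z : Subgroup G} (hZ : U.D (Z : Set G)) (k : ℕ) (v : V) :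
    U.D {y : V | ∃ t t' : Fin k → G, (∀ i, t i ∈ Z ∧ t' i ∈ Z) ∧
      y = ∑ i, (t i • v - t' i • v)} := by
  have h1 : U.D {z : V × ((Fin k → G) × (Fin k → G)) | (∀ i, z.2.1 i ∈ Z ∧ z.2.2 i ∈ Z) ∧
      z.1 = ∑ i, (z.2.1 i • v - z.2.2 i • v)} := by
    refine D_and (D_forall_fin fun i => D_and ?_ ?_) (D_eqf DFn_fst ?_)
    · exact DFn_preim (f := fun z : V × ((Fin k → G) × (Fin k → G)) => z.2.1 i)
        (DFn_comp (DFn_apply i) (DFn_comp DFn_fst DFn_snd)) hZ
    · exact DFn_preim (f := fun z : V × ((Fin k → G) × (Fin k → G)) => z.2.2 i)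
        (DFn_comp (DFn_apply i) (DFn_comp DFn_snd DFn_snd)) hZ
    · refine Pool.Agent.H77.KG.DFn_asum _ fun i _ => Pool.Agent.H77.KG.DFn_asub ?_ ?_
      · exact Pool.Agent.H77.KG.DFn_act (DFn_comp (DFn_apply i) (DFn_comp DFn_fst DFn_snd))
          (DFn_const v)
      · exact Pool.Agent.H77.KG.DFn_act (DFn_comp (DFn_apply i) (DFn_comp DFn_snd DFn_snd))
          (DFn_const v)
  have h2 := D_exists (p := fun (y : V) (p : (Fin k → G) × (Fin k → G)) =>
    (∀ i, p.1 i ∈ Z ∧ p.2 i ∈ Z) ∧ y = ∑ i, (p.1 i • v - p.2 i • v)) h1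
  have e : {y : V | ∃ t t' : Fin k → G, (∀ i, t i ∈ Z ∧ t' i ∈ Z) ∧
      y = ∑ i, (t i • v - t' i • v)} = {a | ∃ b : (Fin k → G) × (Fin k → G),
        (∀ i, b.1 i ∈ Z ∧ b.2 i ∈ Z) ∧ a = ∑ i, (b.1 i • v - b.2 i • v)} := by
    ext y
    constructor
    · rintro ⟨t, t', h⟩
      exact ⟨(t, t'), h⟩
    · rintro ⟨b, h⟩
      exact ⟨b.1, b.2, h⟩
  rw [e]; exact h2

/-- finite dimension from definable lines -/
theorem fin_dim {M : Type} {U : RU M} {V : Type} [AddCommGroup V] [Cod M V]
    [Pool.Agent.H77.KG.DAb U V] {E : Type} [Field E] [Module E V] [Infinite E]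
    (hadt : Pool.Agent.H77.KG.ADT U V)
    (hlineD : ∀ a : V, U.D ((E ∙ a : Submodule E V) : Set V)) : FiniteDimensional E V := by
  classical
  have hspan : ∀ s : Finset V, LinearIndepOn E id (s : Set V) →
      U.D ((Submodule.span E (s : Set V) : Submodule E V) : Set V) ∧
      s.card ≤ U.R ((Submodule.span E (s : Set V) : Submodule E V) : Set V) := by
    intro s
    induction s using Finset.induction_on with
    | empty =>
      intro _
      refine ⟨?_, by simp⟩
      rw [Finset.coe_empty, Submodule.span_empty]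
      have : ((⊥ : Submodule E V) : Set V) = {0} := rfl
      rw [this]
      exact D_singleton (0 : V)
    | insert a s ha ih =>
      intro hli
      rw [Finset.coe_insert] at hli ⊢
      have ha' : a ∉ (s : Set V) := by simpa using ha
      rw [linearIndepOn_id_insert ha'] at hli
      obtain ⟨h1, h2⟩ := ih hli.1
      set N := Submodule.span E (s : Set V) with hN
      have hsp : Submodule.span E (insert a (s : Set V)) = N ⊔ E ∙ a := by
        rw [Submodule.span_insert, sup_comm]
      rw [hsp]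
      have hco : ((N ⊔ E ∙ a : Submodule E V) : Set V) =
          ((N.toAddSubgroup ⊔ (E ∙ a : Submodule E V).toAddSubgroup : AddSubgroup V) :
            Set V) := by
        rw [← Submodule.sup_toAddSubgroup]
        rfl
      rw [hco]
      have hD2 := hadt.sup N.toAddSubgroup (E ∙ a : Submodule E V).toAddSubgroup h1 (hlineD a)
      refine ⟨hD2, ?_⟩
      rw [Finset.card_insert_of_notMem ha]
      have hrel : (N.toAddSubgroup).relIndex
          (N.toAddSubgroup ⊔ (E ∙ a : Submodule E V).toAddSubgroup) = 0 := by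
        rw [AddSubgroup.relIndex_sup_left, ← AddSubgroup.inf_relIndex_right]
        have hbot : N.toAddSubgroup ⊓ (E ∙ a : Submodule E V).toAddSubgroup = ⊥ := by
          rw [eq_bot_iff]
          rintro y ⟨hy1, hy2⟩
          obtain ⟨r, hr⟩ := Submodule.mem_span_singleton.1 (show y ∈ E ∙ a from hy2)
          by_cases hr0 : r = 0
          · rw [AddSubgroup.mem_bot, ← hr, hr0, zero_smul]
          · exfalso
            apply hli.2
            have h3 : r • a ∈ N := by rw [hr]; exact hy1
            have h4 := N.smul_mem r⁻¹ h3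
            rwa [smul_smul, inv_mul_cancel₀ hr0, one_smul, hN] at h4
        rw [hbot, AddSubgroup.relIndex_bot_left]
        have h5 : Infinite (E ∙ a : Submodule E V).toAddSubgroup := by
          refine Infinite.of_injective (fun r : E =>
            (⟨r • a, Submodule.mem_span_singleton.2 ⟨r, rfl⟩⟩ :
              (E ∙ a : Submodule E V).toAddSubgroup)) ?_
          intro r r' hrr
          have h6 : r • a = r' • a := congrArg Subtype.val hrr
          have ha0 : a ≠ 0 := by
            rintro rfl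
            exact hli.2 (Submodule.zero_mem _)
          exact smul_left_injective E ha0 h6
        exact Nat.card_eq_zero_of_infinite
      have h6 := hadt.idx N.toAddSubgroup
        (N.toAddSubgroup ⊔ (E ∙ a : Submodule E V).toAddSubgroup) h1 hD2 le_sup_left
      have h7 : ¬ (U.R ((N.toAddSubgroup ⊔ (E ∙ a : Submodule E V).toAddSubgroup :
          AddSubgroup V) : Set V) ≤ U.R (N.toAddSubgroup : Set V)) := by
        intro h8
        exact (h6.2 h8) hrel
      have h8 : s.card ≤ U.R (N.toAddSubgroup : Set V) := h2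
      omega
  have hrk : Module.rank E V ≤ (U.R (univ : Set V) : ℕ) := by
    refine rank_le fun s hs => ?_
    obtain ⟨h1, h2⟩ := hspan s hs
    exact h2.trans ((l_RKA U).mono h1 (Pool.Agent.H77.KG.DAb.toFul.full) ⟨0, Submodule.zero_mem _⟩
      (Set.subset_univ _))
  exact Module.rank_lt_aleph0_iff.1 (lt_of_le_of_lt hrk Cardinal.natCast_lt_aleph0)

end Pool.Agent.H44.S.KFD

namespace Pool.Agent.H44.S

open Pool.Agent.H44.S.KFD

theorem pf_KFD (kMEX : Pool.Agent.H77.KG.T_MEX) (kZFT : Pool.Agent.H77.KG.T_ZFT)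
    (kADT : Pool.Agent.H77.KG.T_ADT) : T_KFD := by
  classical
  intro M U G V _ _ _ _ _ _ _ _ hfa hinf hirr Z hconn hZinf hcen
  have hZD : U.D (Z : Set G) := hconn.1
  set E := Pool.Agent.H77.KG.Eg (V := V) Z with hE
  -- nonzero operators are injective
  have hker : ∀ r ∈ E, r ≠ 0 → ∀ v : V, r v = 0 → v = 0 := by
    intro r hr hr0
    have hD : U.D ((AddMonoidHom.ker r : AddSubgroup V) : Set V) := by
      have h1 : U.D {v : V | r v = 0} := D_eqf (Eg_def hr) (DFn_const (0 : V))
      exact h1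
    have hI : Pool.Agent.H77.KG.Iv (⊤ : Subgroup G) (AddMonoidHom.ker r : AddSubgroup V) := by
      intro g _ v hv
      have hv' : r v = 0 := hv
      change r (g • v) = 0
      rw [Eg_comm hcen hr, hv', smul_zero]
    rcases hirr _ hD hI with h | h
    · intro v hv
      have h1 : v ∈ (AddMonoidHom.ker r : AddSubgroup V) := hv
      rw [h] at h1
      exact (AddSubgroup.mem_bot).1 h1
    · exfalso
      apply hr0
      refine AddMonoidHom.ext fun v => ?_
      have h1 : v ∈ (AddMonoidHom.ker r : AddSubgroup V) := by rw [h]; exact AddSubgroup.mem_top v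
      exact h1
  -- the minimal group
  obtain ⟨W, -, hMn, hCnS⟩ := kMEX U (G := G) (V := V) Z ⊤
    (Pool.Agent.H77.KG.DAb.toFul.full) (fun _ _ _ _ => AddSubgroup.mem_top _) (by
      rw [AddSubgroup.coe_top]; exact Set.infinite_univ)
  obtain ⟨w0, hw0, hw0n⟩ : ∃ w ∈ W, w ≠ 0 := by
    by_contra hcon
    push Not at hcon
    exact hMn.2.2.1 (Set.Finite.subset (Set.finite_singleton (0 : V)) fun w hw => hcon w hw)
  -- a nontrivial element
  have hdiff : ∀ a b : G, (∀ v : V, a • v = b • v) → a = b := fun a b h => hfa.eq_of_smul_eq_smul h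
  obtain ⟨t0, ht0, ht0n⟩ : ∃ t ∈ Z, t ≠ 1 := by
    by_contra hcon
    push Not at hcon
    exact hZinf (Set.Finite.subset (Set.finite_singleton (1 : G)) fun w hw => hcon w hw)
  have hnt : ∃ t ∈ Z, ∃ w ∈ W, t • w ≠ w := by
    refine ⟨t0, ht0, w0, hw0, fun h => hw0n ?_⟩
    refine hker (op t0 - 1) (Subring.sub_mem _ (op_mem ht0) (Subring.one_mem _)) ?_ w0 ?_
    · intro h1
      apply ht0n
      apply hdiff
      intro v
      have h2 : (op t0 - 1 : AddMonoid.End V) v = 0 := by rw [h1]; rfl
      have h3 : t0 • v - v = 0 := h2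
      rw [one_smul]
      exact sub_eq_zero.1 h3
    · change t0 • w0 - w0 = 0
      rw [h, sub_self]
  obtain ⟨hz1, hz2⟩ := kZFT U (G := G) (V := V) Z W hconn
    (fun a ha b _ => hcen a ha b) hMn hnt
  obtain ⟨k, hk⟩ := hz2 w0 hw0 hw0n
  -- bounded generation
  have hbd : ∀ r ∈ E, ∃ t t' : Fin k → G, (∀ i, t i ∈ Z ∧ t' i ∈ Z) ∧
      r = ∑ i, (op (t i) - op (t' i)) := by
    intro r hr
    obtain ⟨t, t', htt, h⟩ := hk (r w0) (Eg_inv hMn.2.1 hr w0 hw0)
    refine ⟨t, t', htt, ?_⟩
    by_contra hne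
    refine hw0n (hker (r - ∑ i, (op (t i) - op (t' i))) (Subring.sub_mem _ hr
      (bsum_mem t t' htt)) (sub_ne_zero.2 hne) w0 ?_)
    have h1 : (r - ∑ i, (op (t i) - op (t' i)) : AddMonoid.End V) w0 =
      r w0 - (∑ i, (op (t i) - op (t' i)) : AddMonoid.End V) w0 := rfl
    rw [h1, bsum_apply, ← h, sub_self]
  -- the field
  have hcomm : ∀ x ∈ {f : AddMonoid.End V | ∃ t ∈ Z, ∀ v, f v = t • v},
      ∀ y ∈ {f : AddMonoid.End V | ∃ t ∈ Z, ∀ v, f v = t • v}, x * y = y * x := by
    rintro x ⟨t, ht, hx⟩ y ⟨s, hs, hy⟩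
    refine AddMonoidHom.ext fun v => ?_
    change x (y v) = y (x v)
    rw [hy, hx, hx, hy, ← mul_smul, ← mul_smul, hcen t ht s]
  let iR : CommRing E := Subring.closureCommRingOfComm hcomm
  have hcE : ∀ r s : E, r * s = s * r := fun r s => mul_comm r s
  have hfield : IsField E := by
    refine ⟨⟨0, 1, ?_⟩, hcE, ?_⟩
    · intro h
      have h1 : (1 : AddMonoid.End V) = 0 := (congrArg Subtype.val h).symm
      apply hw0n
      have h2 : (1 : AddMonoid.End V) w0 = 0 := by rw [h1]; rfl
      exact h2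
    · rintro ⟨r, hr⟩ hr0
      have hr0' : r ≠ 0 := fun h => hr0 (Subtype.ext h)
      rcases hz1 r hr with h | ⟨-, h⟩
      · exact absurd (hker r hr hr0' w0 (h w0 hw0)) hw0n
      · obtain ⟨w', hw', hw2⟩ := h w0 hw0
        obtain ⟨t, t', htt, h3⟩ := hk w' hw'
        refine ⟨⟨∑ i, (op (t i) - op (t' i)), bsum_mem t t' htt⟩, ?_⟩
        refine Subtype.ext ?_
        change r * (∑ i, (op (t i) - op (t' i))) = 1
        by_contra hne
        refine hw0n (hker (r * (∑ i, (op (t i) - op (t' i))) - 1) (Subring.sub_mem _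
          (Subring.mul_mem _ hr (bsum_mem t t' htt)) (Subring.one_mem _)) (sub_ne_zero.2 hne) w0 ?_)
        change r ((∑ i, (op (t i) - op (t' i)) : AddMonoid.End V) w0) - w0 = 0
        rw [bsum_apply, ← h3, hw2, sub_self]
  let iF : Field E := { iR, hfield.toField with }
  let iM : Module E V :=
    { smul := fun r v => r.1 v
      one_smul := fun v => rfl
      mul_smul := fun r s v => rfl
      smul_zero := fun r => map_zero r.1
      smul_add := fun r v w => map_add r.1 v w
      add_smul := fun r s v => rfl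
      zero_smul := fun v => rfl }
  have hsm : ∀ (r : E) (v : V), r • v = r.1 v := fun _ _ => rfl
  refine ⟨E, iF, iM, ?_, ?_, ?_⟩
  · -- finite dimension
    -- lines
    have hline : ∀ a : V, ((E ∙ a : Submodule E V) : Set V) =
        {y : V | ∃ t t' : Fin k → G, (∀ i, t i ∈ Z ∧ t' i ∈ Z) ∧
          y = ∑ i, (t i • a - t' i • a)} := by
      intro a
      ext y
      rw [SetLike.mem_coe, Submodule.mem_span_singleton]
      constructor
      · rintro ⟨r, rfl⟩
        obtain ⟨t, t', htt, h⟩ := hbd r.1 r.2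
        exact ⟨t, t', htt, by rw [hsm, h, bsum_apply]⟩
      · rintro ⟨t, t', htt, rfl⟩
        exact ⟨⟨_, bsum_mem t t' htt⟩, by rw [hsm, bsum_apply]⟩
    have hlineD : ∀ a : V, U.D ((E ∙ a : Submodule E V) : Set V) := by
      intro a
      rw [hline]
      exact D_vals hZD k a
    have hinfE : Infinite E := by
      have h1 : Infinite Z := hZinf.to_subtype
      refine Infinite.of_injective (fun z : Z => (⟨op z.1, op_mem z.2⟩ : E)) ?_
      intro a b hab
      refine Subtype.ext (hdiff _ _ fun v => ?_)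
      have h2 : (op a.1 : AddMonoid.End V) = op b.1 := congrArg Subtype.val hab
      exact congrArg (fun f : AddMonoid.End V => f v) h2
    exact fin_dim (kADT U V) hlineD
  · intro z hz
    exact ⟨⟨op z, op_mem hz⟩, fun v => rfl⟩
  · intro g r v
    exact (Eg_comm hcen r.2 g v).symm

end Pool.Agent.H44.S
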